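import Mathlib

/-!
# MP_19ad23_co : ordered Turan numbers of non-nested matchings

The problem asks whether for all `n ≥ 2k` the ordered Turan numbers of non-nested and of strongly
non-nested `k`-matchings are both equal to `(k-1) n`.  We disprove both equalities:

* for `k = 5` and every `n ≥ 11` there is an ordered graph on `n` vertices with `4 n + 1` edges
  and without any non-nested `5`-matching;
* for `k = 4` and every `n ≥ 9` there is an ordered graph on `n` vertices with `3 n + 1` edges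
  (and with `3 n + 2` edges if `n ≥ 11`) and without any strongly non-nested `4`-matching.
-/

set_option maxRecDepth 100000

namespace Pool.Agent.Results.MP_19ad23_co.BothEqualitiesFail

/-- Two pairs are separated if the intervals they span are disjoint. -/
def Separated {n : ℕ} (e f : Fin n × Fin n) : Prop :=
  Disjoint (Set.Icc e.1 e.2) (Set.Icc f.1 f.2)

/-- Two pairs are nested if one of the intervals they span contains the other. -/
def Nested {n : ℕ} (e f : Fin n × Fin n) : Prop :=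
  Set.Icc e.1 e.2 ⊆ Set.Icc f.1 f.2 ∨ Set.Icc f.1 f.2 ⊆ Set.Icc e.1 e.2

/-- Two pairs are crossing if they are neither separated nor nested. -/
def Crossing {n : ℕ} (e f : Fin n × Fin n) : Prop := ¬ Separated e f ∧ ¬ Nested e f

/-- `M` is a `k`-matching of the ordered graph `G`: a set of `k` pairwise vertex-disjoint edges,
an edge being written as the pair `(x, y)` of its end vertices with `x < y`. -/
def IsMatching {n : ℕ} (G : SimpleGraph (Fin n)) (k : ℕ) (M : Finset (Fin n × Fin n)) : Prop :=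
  M.card = k ∧ (∀ e ∈ M, e.1 < e.2 ∧ G.Adj e.1 e.2) ∧
    ∀ e ∈ M, ∀ f ∈ M, e ≠ f → e.1 ≠ f.1 ∧ e.1 ≠ f.2 ∧ e.2 ≠ f.1 ∧ e.2 ≠ f.2

/-- No two edges of `M` are nested. -/
def NonNested {n : ℕ} (M : Finset (Fin n × Fin n)) : Prop :=
  ∀ e ∈ M, ∀ f ∈ M, e ≠ f → ¬ Nested e f

/-- `M` can be partitioned (the part of an edge is its value under `c`) such that two distinct
edges in the same part cross and two edges in different parts are separated. -/
def StronglyNonNested {n : ℕ} (M : Finset (Fin n × Fin n)) : Prop :=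
  ∃ c : Fin n × Fin n → ℕ, ∀ e ∈ M, ∀ f ∈ M, e ≠ f →
    (c e = c f → Crossing e f) ∧ (c e ≠ c f → Separated e f)

/-- The ordered Turan number `ex_<(n, ¬Nest-M_k)`: the largest number of edges of an ordered graph
on `n` vertices without a non-nested `k`-matching. -/
noncomputable def exNonNested (n k : ℕ) : ℕ :=
  sSup {m | ∃ G : SimpleGraph (Fin n),
    (∀ M, IsMatching G k M → ¬ NonNested M) ∧ G.edgeSet.ncard = m}

/-- The ordered Turan number `ex_<(n, ¬Nest*-M_k)`: the largest number of edges of an ordered graph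
on `n` vertices without a strongly non-nested `k`-matching. -/
noncomputable def exStrong (n k : ℕ) : ℕ :=
  sSup {m | ∃ G : SimpleGraph (Fin n),
    (∀ M, IsMatching G k M → ¬ StronglyNonNested M) ∧ G.edgeSet.ncard = m}

/-! ### The host graphs -/

/-- The vertices below `m` carry the pairs in `E`, every vertex `j ≥ m` is joined to the
first `s` vertices. -/
def P (E : List (ℕ × ℕ)) (m s : ℕ) (i j : ℕ) : Prop :=
  (j < m ∧ (i, j) ∈ E) ∨ (m ≤ j ∧ i < s)

/-- The host graph on `n` vertices. -/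
def host (E : List (ℕ × ℕ)) (m s n : ℕ) : SimpleGraph (Fin n) where
  Adj x y := (x < y ∧ P E m s x y) ∨ (y < x ∧ P E m s y x)
  symm := ⟨by
    intro x y h
    rcases h with h | h
    · exact Or.inr h
    · exact Or.inl h⟩
  loopless := ⟨by
    intro x h
    rcases h with h | h
    · exact lt_irrefl _ h.1
    · exact lt_irrefl _ h.1⟩

lemma card_host (E : List (ℕ × ℕ)) (m s n : ℕ) (hE : E.Nodup)
    (hE2 : ∀ p ∈ E, p.1 < p.2 ∧ p.2 < m) (hs : s ≤ m) (hn : m ≤ n) :
    E.length + s * (n - m) ≤ (host E m s n).edgeSet.ncard := by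
  classical
  set T : Finset (ℕ × ℕ) := E.toFinset ∪ (Finset.range s ×ˢ Finset.Ico m n) with hT
  have hcard : T.card = E.length + s * (n - m) := by
    rw [hT, Finset.card_union_of_disjoint, List.toFinset_card_of_nodup hE, Finset.card_product,
      Finset.card_range, Nat.card_Ico]
    rw [Finset.disjoint_left]
    intro p hp hq
    have h1 := hE2 p (List.mem_toFinset.1 hp)
    rw [Finset.mem_product, Finset.mem_Ico] at hq
    omega
  have hTprop : ∀ p ∈ T, p.1 < p.2 ∧ p.2 < n ∧ P E m s p.1 p.2 := by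
    intro p hp
    rw [hT, Finset.mem_union] at hp
    rcases hp with hp | hp
    · have hp' := List.mem_toFinset.1 hp
      have := hE2 p hp'
      exact ⟨this.1, by omega, Or.inl ⟨this.2, hp'⟩⟩
    · rw [Finset.mem_product, Finset.mem_Ico, Finset.mem_range] at hp
      exact ⟨by omega, by omega, Or.inr ⟨by omega, by omega⟩⟩
  rw [← hcard, ← Set.ncard_coe_finset T]
  have hinj : Function.Injective (Sym2.map (Fin.val : Fin n → ℕ)) :=
    Sym2.map.injective Fin.val_injective
  rw [← Set.ncard_image_of_injective (host E m s n).edgeSet hinj]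
  refine Set.ncard_le_ncard_of_injOn (fun p => s(p.1, p.2)) ?_ ?_ (Set.toFinite _)
  · intro p hp
    have h := hTprop p (Finset.mem_coe.1 hp)
    refine ⟨s((⟨p.1, by omega⟩ : Fin n), (⟨p.2, by omega⟩ : Fin n)), ?_, ?_⟩
    · rw [SimpleGraph.mem_edgeSet]
      exact Or.inl ⟨by rw [Fin.lt_def]; exact h.1, h.2.2⟩
    · simp
  · intro p hp q hq hpq
    have h1 := hTprop p (Finset.mem_coe.1 hp)
    have h2 := hTprop q (Finset.mem_coe.1 hq)
    simp only [Sym2.eq_iff] at hpq
    rcases hpq with h | h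
    · exact Prod.ext h.1 h.2
    · omega

/-! ### The sorted sequence of edges -/

lemma not_nested_iff {n : ℕ} {e f : Fin n × Fin n} (he : e.1 < e.2) (hf : f.1 < f.2)
    (h : ¬ Nested e f) (hlt : e.1 < f.1) : e.2 < f.2 := by
  by_contra hc
  apply h
  right
  exact Set.Icc_subset_Icc hlt.le (not_lt.1 hc)

lemma sep_iff {n : ℕ} {e f : Fin n × Fin n} (he : e.1 < e.2) (hf : f.1 < f.2)
    (h : Separated e f) (hlt : e.1 < f.1) : e.2 < f.1 := by
  by_contra hc
  have h1 : f.1 ∈ Set.Icc e.1 e.2 := ⟨hlt.le, not_lt.1 hc⟩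
  have h2 : f.1 ∈ Set.Icc f.1 f.2 := ⟨le_refl _, hf.le⟩
  exact Set.disjoint_left.1 h h1 h2

lemma sep_of_lt {n : ℕ} {e f : Fin n × Fin n} (h : e.2 < f.1) : Separated e f := by
  rw [Separated, Set.disjoint_left]
  intro x h1 h2
  exact absurd (lt_of_le_of_lt h1.2 (lt_of_lt_of_le h h2.1)) (lt_irrefl _)

lemma sorted_seq (E : List (ℕ × ℕ)) (m s n : ℕ) (M : Finset (Fin n × Fin n))
    (hM : IsMatching (host E m s n) (s + 1) M) (hN : NonNested M) :
    ∃ e : Fin (s + 1) → Fin n × Fin n, (∀ i, e i ∈ M) ∧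
      (∀ i j, i < j → (e i).1 < (e j).1 ∧ (e i).2 < (e j).2 ∧ (e i).2 ≠ (e j).1) ∧
      ∀ i, (((e i).1 : ℕ), ((e i).2 : ℕ)) ∈ E := by
  classical
  obtain ⟨hcard, hadj, hdis⟩ := hM
  have hinj : Set.InjOn Prod.fst (M : Set (Fin n × Fin n)) := by
    intro e he f hf hef
    by_contra hne
    exact (hdis e he f hf hne).1 hef
  have hA : (M.image Prod.fst).card = s + 1 := by
    rw [Finset.card_image_of_injOn hinj, hcard]
  set a := (M.image Prod.fst).orderEmbOfFin hA with ha
  have hmem : ∀ i, ∃ e ∈ M, e.1 = a i := by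
    intro i
    have := Finset.orderEmbOfFin_mem (M.image Prod.fst) hA i
    rw [Finset.mem_image] at this
    exact this
  choose e he hea using hmem
  have hlt1 : ∀ i j, i < j → (e i).1 < (e j).1 := by
    intro i j hij
    rw [hea, hea]
    exact a.strictMono hij
  have hsort : ∀ i j, i < j → (e i).1 < (e j).1 ∧ (e i).2 < (e j).2 ∧ (e i).2 ≠ (e j).1 := by
    intro i j hij
    have h1 := hlt1 i j hij
    have hne : e i ≠ e j := by
      intro h
      rw [h] at h1
      exact lt_irrefl _ h1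
    refine ⟨h1, ?_, (hdis _ (he i) _ (he j) hne).2.2.1⟩
    exact not_nested_iff (hadj _ (he i)).1 (hadj _ (he j)).1 (hN _ (he i) _ (he j) hne) h1
  refine ⟨e, he, hsort, ?_⟩
  have hP : ∀ i, P E m s (e i).1 (e i).2 := by
    intro i
    have h := hadj _ (he i)
    rcases h.2 with h2 | h2
    · exact h2.2
    · exact absurd h.1 (not_lt.2 h2.1.le)
  have hge : ∀ i : Fin (s + 1), (i : ℕ) ≤ (e i).1 := by
    intro i
    obtain ⟨i, hi⟩ := i
    induction i with
    | zero => exact Nat.zero_le _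
    | succ i ih =>
      have h1 := ih (by omega)
      have h2 := hlt1 ⟨i, by omega⟩ ⟨i + 1, hi⟩ (by rw [Fin.lt_def]; exact Nat.lt_succ_self i)
      rw [Fin.lt_def] at h2
      simp only at h1 h2 ⊢
      omega
  have hlast : ((e (Fin.last s)).2 : ℕ) < m := by
    rcases hP (Fin.last s) with h | h
    · exact h.1
    · exfalso
      have := hge (Fin.last s)
      rw [Fin.val_last] at this
      omega
  intro i
  have hi : ((e i).2 : ℕ) < m := by
    rcases (Fin.le_last i).eq_or_lt with h | h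
    · rw [h]; exact hlast
    · have := (hsort i (Fin.last s) h).2.1
      rw [Fin.lt_def] at this
      omega
  rcases hP i with h | h
  · exact h.2
  · omega

/-! ### The finite checks -/

/-- `f` can precede `e` in the sorted sequence of a non-nested matching. -/
def aft (f e : ℕ × ℕ) : Bool := Nat.blt f.1 e.1 && (Nat.blt f.2 e.2 && !(Nat.beq f.2 e.1))

/-- the sorted triple `f, g, e` does not violate transitivity of crossing. -/
def str (f g e : ℕ × ℕ) : Bool := !(Nat.blt g.1 f.2 && (Nat.blt e.1 g.2 && Nat.blt f.2 e.1))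

/-- The pairs of the 11-vertex graph with 45 edges. -/
def E11 : List (ℕ × ℕ) := [(0,4),(0,5),(0,6),(0,7),(0,8),(0,9),(0,10),
 (1,2),(1,3),(1,4),(1,5),(1,6),(1,7),(1,8),(1,9),(1,10),
 (2,3),(2,4),(2,5),(2,6),(2,9),(2,10),
 (3,4),(3,5),(3,6),(3,9),(3,10),
 (4,5),(4,6),(4,7),(4,8),(4,9),(4,10),
 (5,6),(5,7),(5,8),(5,9),(5,10),
 (6,7),(6,8),(6,9),(6,10),
 (7,8),(7,9),
 (8,9)]

/-- The pairs of the 9-vertex graph with 28 edges. -/
def E9 : List (ℕ × ℕ) := [(0,3),(0,6),(0,7),(0,8),
 (1,3),(1,6),(1,7),(1,8),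
 (2,3),(2,5),(2,6),(2,7),(2,8),
 (3,4),(3,5),(3,6),(3,7),(3,8),
 (4,5),(4,6),(4,7),(4,8),
 (5,6),(5,7),(5,8),
 (6,7),(6,8),
 (7,8)]

/-- The pairs of the 11-vertex graph with 35 edges. -/
def F11 : List (ℕ × ℕ) := [(0,3),(0,5),(0,6),(0,7),(0,8),(0,9),(0,10),
 (1,3),(1,5),(1,7),(1,8),(1,9),(1,10),
 (2,3),(2,5),(2,7),(2,8),(2,9),(2,10),
 (3,4),(3,5),(3,6),(3,7),(3,8),
 (4,5),(4,6),(4,7),(4,8),
 (5,6),(5,7),(5,8),
 (6,7),
 (7,8),(7,9),(7,10)]

/-- No non-nested 5-matching inside the list. -/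
def chk5 (E : List (ℕ × ℕ)) : Bool :=
  E.all fun e0 => E.all fun e1 => !(aft e0 e1) ||
    E.all fun e2 => !(aft e0 e2 && aft e1 e2) ||
    E.all fun e3 => !(aft e0 e3 && (aft e1 e3 && aft e2 e3)) ||
    E.all fun e4 => !(aft e0 e4 && (aft e1 e4 && (aft e2 e4 && aft e3 e4)))

/-- No strongly non-nested 4-matching inside the list. -/
def chk4 (E : List (ℕ × ℕ)) : Bool :=
  E.all fun e0 => E.all fun e1 => !(aft e0 e1) ||
    E.all fun e2 => !(aft e0 e2 && (aft e1 e2 && str e0 e1 e2)) ||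
    E.all fun e3 => !(aft e0 e3 && (aft e1 e3 && (aft e2 e3 &&
      (str e0 e1 e3 && (str e0 e2 e3 && str e1 e2 e3)))))

lemma chk5_E11 : chk5 E11 = true := by decide +kernel

lemma chk4_E9 : chk4 E9 = true := by decide +kernel

lemma chk4_F11 : chk4 F11 = true := by decide +kernel

/-- forget the bounds -/
def nn {n : ℕ} (e : Fin n × Fin n) : ℕ × ℕ := ((e.1 : ℕ), (e.2 : ℕ))

lemma aft_true {n : ℕ} {e f : Fin n × Fin n}
    (h : (e.1 < f.1 ∧ e.2 < f.2 ∧ e.2 ≠ f.1)) : aft (nn e) (nn f) = true := by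
  obtain ⟨h1, h2, h3⟩ := h
  rw [Fin.lt_def] at h1 h2
  have h3' : (e.2 : ℕ) ≠ (f.1 : ℕ) := fun h => h3 (Fin.ext h)
  simp only [aft, nn, Bool.and_eq_true, Bool.not_eq_true']
  refine ⟨?_, ?_, ?_⟩
  · exact Nat.ble_eq_true_of_le h1
  · exact Nat.ble_eq_true_of_le h2
  · rw [← Bool.not_eq_true, Nat.beq_eq]
    exact h3'

lemma str_true {n : ℕ} {e f g : Fin n × Fin n}
    (h : ¬ (f.1 < e.2 ∧ g.1 < f.2 ∧ e.2 < g.1)) : str (nn e) (nn f) (nn g) = true := by
  simp only [str, nn, Bool.not_eq_true']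
  rw [Bool.and_eq_false_iff, Bool.and_eq_false_iff]
  by_contra hc
  push Not at hc
  apply h
  have h1 := hc.1
  have h2 := hc.2.1
  have h3 := hc.2.2
  rw [Bool.ne_false_iff] at h1 h2 h3
  exact ⟨Nat.le_of_ble_eq_true h1, Nat.le_of_ble_eq_true h2, Nat.le_of_ble_eq_true h3⟩

theorem no_nn5 (n : ℕ) (M : Finset (Fin n × Fin n)) (hM : IsMatching (host E11 11 4 n) 5 M) :
    ¬ NonNested M := by
  intro hN
  obtain ⟨e, -, hs, hE⟩ := sorted_seq E11 11 4 n M hM hN
  have h := chk5_E11
  simp only [chk5, List.all_eq_true] at h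
  have a01 := aft_true (hs 0 1 (by decide))
  have a02 := aft_true (hs 0 2 (by decide))
  have a03 := aft_true (hs 0 3 (by decide))
  have a04 := aft_true (hs 0 4 (by decide))
  have a12 := aft_true (hs 1 2 (by decide))
  have a13 := aft_true (hs 1 3 (by decide))
  have a14 := aft_true (hs 1 4 (by decide))
  have a23 := aft_true (hs 2 3 (by decide))
  have a24 := aft_true (hs 2 4 (by decide))
  have a34 := aft_true (hs 3 4 (by decide))
  have h1 := h _ (hE 0) _ (hE 1)
  change (!aft (nn (e 0)) (nn (e 1)) || _) = true at h1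
  rw [a01, Bool.not_true, Bool.false_or, List.all_eq_true] at h1
  have h2 := h1 _ (hE 2)
  change (!(aft (nn (e 0)) (nn (e 2)) && aft (nn (e 1)) (nn (e 2))) || _) = true at h2
  rw [a02, a12, Bool.and_true, Bool.not_true, Bool.false_or, List.all_eq_true] at h2
  have h3 := h2 _ (hE 3)
  change (!(aft (nn (e 0)) (nn (e 3)) && (aft (nn (e 1)) (nn (e 3)) &&
    aft (nn (e 2)) (nn (e 3)))) || _) = true at h3
  rw [a03, a13, a23, Bool.and_true, Bool.and_true, Bool.not_true, Bool.false_or,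
    List.all_eq_true] at h3
  have h4 := h3 _ (hE 4)
  change (!(aft (nn (e 0)) (nn (e 4)) && (aft (nn (e 1)) (nn (e 4)) &&
    (aft (nn (e 2)) (nn (e 4)) && aft (nn (e 3)) (nn (e 4)))))) = true at h4
  rw [a04, a14, a24, a34] at h4
  exact absurd h4 (by decide)

lemma strong_nonnested {n : ℕ} {M : Finset (Fin n × Fin n)} (hS : StronglyNonNested M)
    (hlt : ∀ e ∈ M, e.1 < e.2) : NonNested M := by
  obtain ⟨c, hc⟩ := hS
  intro e he f hf hne
  by_cases h : c e = c f
  · exact ((hc e he f hf hne).1 h).2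
  · have hsep := (hc e he f hf hne).2 h
    intro hnest
    rcases hnest with h1 | h1
    · exact Set.disjoint_left.1 hsep (Set.left_mem_Icc.2 (hlt e he).le)
        (h1 (Set.left_mem_Icc.2 (hlt e he).le))
    · exact Set.disjoint_left.1 hsep (h1 (Set.left_mem_Icc.2 (hlt f hf).le))
        (Set.left_mem_Icc.2 (hlt f hf).le)

theorem no_st4 (E : List (ℕ × ℕ)) (m : ℕ) (hchk : chk4 E = true) (n : ℕ)
    (M : Finset (Fin n × Fin n)) (hM : IsMatching (host E m 3 n) 4 M) :
    ¬ StronglyNonNested M := by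
  intro hS
  have hN := strong_nonnested hS (fun e he => (hM.2.1 e he).1)
  obtain ⟨e, hmem, hs, hE⟩ := sorted_seq E m 3 n M hM hN
  obtain ⟨c, hc⟩ := hS
  have h := hchk
  simp only [chk4, List.all_eq_true] at h
  have hlt : ∀ i, (e i).1 < (e i).2 := fun i => (hM.2.1 _ (hmem i)).1
  have hne : ∀ i j, i < j → e i ≠ e j := by
    intro i j hij heq
    have := (hs i j hij).1
    rw [heq] at this
    exact lt_irrefl _ this
  have hcr : ∀ i j, i < j → (e j).1 < (e i).2 → c (e i) = c (e j) := by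
    intro i j hij h1
    by_contra hcc
    have hsep := (hc _ (hmem i) _ (hmem j) (hne i j hij)).2 hcc
    exact absurd (sep_iff (hlt i) (hlt j) hsep (hs i j hij).1) (not_lt.2 h1.le)
  have hstr : ∀ i j l, i < j → j < l → str (nn (e i)) (nn (e j)) (nn (e l)) = true := by
    intro i j l hij hjl
    apply str_true
    rintro ⟨h1, h2, h3⟩
    have c1 := hcr i j hij h1
    have c2 := hcr j l hjl h2
    have := (hc _ (hmem i) _ (hmem l) (hne i l (hij.trans hjl))).1 (c1.trans c2)
    exact this.1 (sep_of_lt h3)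
  have a01 := aft_true (hs 0 1 (by decide))
  have a02 := aft_true (hs 0 2 (by decide))
  have a03 := aft_true (hs 0 3 (by decide))
  have a12 := aft_true (hs 1 2 (by decide))
  have a13 := aft_true (hs 1 3 (by decide))
  have a23 := aft_true (hs 2 3 (by decide))
  have s012 := hstr 0 1 2 (by decide) (by decide)
  have s013 := hstr 0 1 3 (by decide) (by decide)
  have s023 := hstr 0 2 3 (by decide) (by decide)
  have s123 := hstr 1 2 3 (by decide) (by decide)
  have h1 := h _ (hE 0) _ (hE 1)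
  change (!aft (nn (e 0)) (nn (e 1)) || _) = true at h1
  rw [a01, Bool.not_true, Bool.false_or, List.all_eq_true] at h1
  have h2 := h1 _ (hE 2)
  change (!(aft (nn (e 0)) (nn (e 2)) && (aft (nn (e 1)) (nn (e 2)) &&
    str (nn (e 0)) (nn (e 1)) (nn (e 2)))) || _) = true at h2
  rw [a02, a12, s012, Bool.and_true, Bool.and_true, Bool.not_true, Bool.false_or,
    List.all_eq_true] at h2
  have h3 := h2 _ (hE 3)
  change (!(aft (nn (e 0)) (nn (e 3)) && (aft (nn (e 1)) (nn (e 3)) &&
    (aft (nn (e 2)) (nn (e 3)) && (str (nn (e 0)) (nn (e 1)) (nn (e 3)) &&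
    (str (nn (e 0)) (nn (e 2)) (nn (e 3)) && str (nn (e 1)) (nn (e 2)) (nn (e 3)))))))) = true at h3
  rw [a03, a13, a23, s013, s023, s123] at h3
  exact absurd h3 (by decide)

/-! ### The Turan numbers -/

lemma le_exNonNested {n k : ℕ} (G : SimpleGraph (Fin n))
    (hG : ∀ M, IsMatching G k M → ¬ NonNested M) : G.edgeSet.ncard ≤ exNonNested n k := by
  apply le_csSup
  · refine ⟨Nat.card (Sym2 (Fin n)), ?_⟩
    rintro m ⟨H, -, rfl⟩
    exact Set.ncard_le_card _
  · exact ⟨G, hG, rfl⟩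

lemma le_exStrong {n k : ℕ} (G : SimpleGraph (Fin n))
    (hG : ∀ M, IsMatching G k M → ¬ StronglyNonNested M) : G.edgeSet.ncard ≤ exStrong n k := by
  apply le_csSup
  · refine ⟨Nat.card (Sym2 (Fin n)), ?_⟩
    rintro m ⟨H, -, rfl⟩
    exact Set.ncard_le_card _
  · exact ⟨G, hG, rfl⟩

theorem part_a (n : ℕ) (hn : 11 ≤ n) : 4 * n < exNonNested n 5 := by
  have h1 := card_host E11 11 4 n (by decide +kernel) (by decide +kernel) (by norm_num) hn
  have h2 := le_exNonNested (k := 5) (host E11 11 4 n) (no_nn5 n)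
  have h3 : E11.length = 45 := by decide +kernel
  omega

theorem part_b (n : ℕ) (hn : 9 ≤ n) : 3 * n < exStrong n 4 := by
  have h1 := card_host E9 9 3 n (by decide +kernel) (by decide +kernel) (by norm_num) hn
  have h2 := le_exStrong (k := 4) (host E9 9 3 n) (no_st4 E9 9 chk4_E9 n)
  have h3 : E9.length = 28 := by decide +kernel
  omega

theorem part_c (n : ℕ) (hn : 11 ≤ n) : 3 * n + 2 ≤ exStrong n 4 := by
  have h1 := card_host F11 11 3 n (by decide +kernel) (by decide +kernel) (by norm_num) hn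
  have h2 := le_exStrong (k := 4) (host F11 11 3 n) (no_st4 F11 11 chk4_F11 n)
  have h3 : F11.length = 35 := by decide +kernel
  omega

/-- **Both conjectured equalities are false.**  For `k = 5` and every `n ≥ 11` already the smaller
number `ex_<(n, ¬Nest-M_5)` exceeds `4 n`; for `k = 4` the number `ex_<(n, ¬Nest*-M_4)` exceeds
`3 n` for every `n ≥ 9`, and is at least `3 n + 2` for every `n ≥ 11`. -/
theorem result :
    (∀ n : ℕ, 11 ≤ n → 4 * n < exNonNested n 5) ∧
    (∀ n : ℕ, 9 ≤ n → 3 * n < exStrong n 4) ∧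
    (∀ n : ℕ, 11 ≤ n → 3 * n + 2 ≤ exStrong n 4) ∧
    ¬ (∀ n k : ℕ, 1 ≤ k → 2 * k ≤ n →
        exNonNested n k = (k - 1) * n ∧ exStrong n k = (k - 1) * n) := by
  refine ⟨part_a, part_b, part_c, ?_⟩
  intro h
  have h1 := (h 11 5 (by norm_num) (by norm_num)).1
  have h2 := part_a 11 le_rfl
  omega

end Pool.Agent.Results.MP_19ad23_co.BothEqualitiesFail
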